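import Pool.Agent.Y111.DM.Sets

/-!
# The refined Chudnovsky bound for arbitrary sets of points with multiplicities

`w` is an arbitrary function on the `K`-rational points of the projective space of dimension `N`
with values in the natural numbers, not identically zero; its support may be infinite, for example
the set of all points of a projective variety. `I_m` is the ideal of the polynomials which vanish to
order at least `m w(p)` at every point `p`. If `w` is the indicator function of a finite set of
points with ideal `I`, then `I_m` is the symbolic power `I^(m)`.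

If `I_r` is not zero then `(α(I_m) + N - 1) / (m + N - 1) ≤ α(I_r) / r` for all `m`. For a finite
set of points this is the inequality asked for in the problem, over an arbitrary field.

The proof: forms of bounded degree satisfy the infinitely many conditions at the points of the
support as soon as they satisfy finitely many of them; for finitely many points with multiplicities
the inequality is a theorem of the starting library `H737R3`.
-/

set_option autoImplicit false

namespace Pool.Agent.Results.MP_4fee6f_ag.ArbitrarySets

open MvPolynomial Pool.Agent.H737R3 Pool.Agent.Y111.DM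

/-- **The refined Chudnovsky bound** for arbitrary sets of points with multiplicities, and for
finite sets of points, over an arbitrary field `K`, `N ≥ 1`. -/
theorem result (K : Type*) [Field K] (N : ℕ) (hN : 1 ≤ N) :
    (∀ w : PP K N → ℕ, w ≠ 0 → ∀ m r : ℕ, 1 ≤ m → 1 ≤ r →
      multIdeal (fun p => r * w p) ≠ ⊥ →
        multIdeal (fun p => m * w p) ≠ ⊥ ∧
        ((alphaH (multIdeal (fun p => m * w p)) : ℝ) + N - 1) / ((m : ℝ) + N - 1) ≤
          (alphaH (multIdeal (fun p => r * w p)) : ℝ) / r) ∧
    (∀ S : Finset (PP K N), S.Nonempty → ∀ m r : ℕ, 1 ≤ m → 1 ≤ r →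
      symPow S r ≠ ⊥ ∧
      ((alphaH (symPow S m) : ℝ) + N - 1) / ((m : ℝ) + N - 1) ≤
        (alphaH (symPow S r) : ℝ) / r) := by
  have main : ∀ w : PP K N → ℕ, w ≠ 0 → ∀ m r : ℕ, 1 ≤ m → 1 ≤ r →
      multIdeal (fun p => r * w p) ≠ ⊥ →
        multIdeal (fun p => m * w p) ≠ ⊥ ∧
        ((alphaH (multIdeal (fun p => m * w p)) : ℝ) + N - 1) / ((m : ℝ) + N - 1) ≤
          (alphaH (multIdeal (fun p => r * w p)) : ℝ) / r := by
    intro w hw m r hm hr hne
    refine ⟨multIdeal_ne_bot hr hne m, ?_⟩
    rw [alphaH_eq', alphaH_eq']
    exact real_of_nat hN hm hr (demailly_all hN w hw m r hm hne)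
  refine ⟨main, ?_⟩
  intro S hS m r hm hr
  have hfin : ∀ r : ℕ, multIdeal (fun p => r * Set.indicator (S : Set (PP K N)) 1 p) ≠ ⊥ := by
    intro r
    refine multIdeal_ne_bot_of_finite hN (S.finite_toSet.subset ?_)
    intro p hp
    by_contra hcon
    apply hp
    change r * Set.indicator (S : Set (PP K N)) 1 p = 0
    rw [Set.indicator_of_notMem hcon, mul_zero]
  have hne : Set.indicator (S : Set (PP K N)) 1 ≠ (0 : PP K N → ℕ) := by
    obtain ⟨q, hq⟩ := hS
    intro h
    have := congrFun h q
    rw [Set.indicator_of_mem (Finset.mem_coe.2 hq)] at this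
    exact one_ne_zero this
  rw [symPow_eq, symPow_eq]
  exact ⟨hfin r, (main _ hne m r hm hr (hfin r)).2⟩

end Pool.Agent.Results.MP_4fee6f_ag.ArbitrarySets
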